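import Pool.Agent.H.MP_a6fba8_lc.Defs

namespace Pool.Agent.H.MP_a6fba8_lc

open FirstOrder FirstOrder.Language Relation

inductive F1 : ℕ → Type
  | c : Fin 7 → F1 0
  | ff : F1 1

inductive F2 : ℕ → Type
  | g : F2 2

def L1 : FirstOrder.Language.{0, 0} := ⟨F1, fun _ => Empty⟩
def L2 : FirstOrder.Language.{0, 0} := ⟨F2, fun _ => Empty⟩

def k (i : Fin 7) : L1.Term ℕ := Term.func (L := L1) (F1.c i) Fin.elim0
def fx : L1.Term ℕ := Term.func (L := L1) F1.ff (fun _ => Term.var 0)
def gxy : L2.Term ℕ := Term.func (L := L2) F2.g (fun i => Term.var i.1)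

def u (i j : Fin 7) : Rule L1 := ⟨[], k i, k j⟩
def cr (j : Fin 7) : Rule L1 := ⟨[(Term.var 0, k 3), (Term.var 0, k 4)], fx, k j⟩
def gr (j : ℕ) : Rule L2 := ⟨[(Term.var 0, Term.var 1)], gxy, Term.var j⟩

def R1 : Set (Rule L1) := {u 0 2, u 1 2, u 0 3, u 1 4, u 2 2, u 3 3, u 4 4, cr 5, cr 6}
def R2 : Set (Rule L2) := {gr 0, gr 1}

theorem k_subst (i : Fin 7) (σ : ℕ → L1.Term ℕ) : (k i).subst σ = k i := by
  unfold k
  simp only [Term.subst]
  congr 1
  funext j
  exact j.elim0

theorem k_vars (i : Fin 7) : (k i).varFinset = ∅ := by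
  simp [k, Term.varFinset]

theorem fx_vars : fx.varFinset = {0} := by
  simp [fx, Term.varFinset]

theorem gxy_vars : gxy.varFinset = {0, 1} := by
  ext x
  simp [gxy, Term.varFinset, Fin.exists_fin_two]

theorem good1 : Good R1 := by
  refine ⟨by unfold R1; exact Set.toFinite _, ?_⟩
  intro ρ h
  simp only [R1, Set.mem_insert_iff, Set.mem_singleton_iff] at h
  rcases h with rfl | rfl | rfl | rfl | rfl | rfl | rfl | rfl | rfl
  all_goals first
    | exact ⟨fun x h => (by cases h), by simp [u, k_vars], by simp [u]⟩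
    | exact ⟨fun x h => (by cases h), by simp [cr, k_vars], by simp [cr, k_vars, fx_vars, Term.varFinset]⟩

theorem good2 : Good R2 := by
  refine ⟨by unfold R2; exact Set.toFinite _, ?_⟩
  intro ρ h
  simp only [R2, Set.mem_insert_iff, Set.mem_singleton_iff] at h
  rcases h with rfl | rfl
  all_goals
    exact ⟨fun x h => (by cases h), by simp [gr, gxy_vars, Term.varFinset],
      by simp [gr, gxy_vars, Term.varFinset]⟩

def code1 : ∀ n, F1 n → ℕ
  | _, .c i => i.1
  | _, .ff => 7

def hd : L1.Term ℕ → ℕ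
  | .var _ => 8
  | .func f _ => code1 _ f

def ok (a b : ℕ) : Prop :=
  (b = 3 → a = 0 ∨ a = 3) ∧ (b = 4 → a = 1 ∨ a = 4) ∧ b ≠ 0 ∧ b ≠ 1 ∧ (a = 3 → b = 3) ∧ (a = 4 → b = 4)

theorem hd_k (i : Fin 7) : hd (k i) = i.1 := rfl

theorem step_ok {E : L1.Term ℕ → L1.Term ℕ → Prop} {s t : L1.Term ℕ} (h : Step R1 E s t) :
    ok (hd s) (hd t) := by
  cases h with
  | root ρ σ h =>
    simp only [R1, Set.mem_insert_iff, Set.mem_singleton_iff] at h
    rcases h with rfl | rfl | rfl | rfl | rfl | rfl | rfl | rfl | rfl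
    all_goals first
      | (simp only [u, k_subst, hd_k, ok]; decide)
      | (have e : hd (fx.subst σ) = 7 := rfl
         simp only [cr, k_subst, hd_k, ok, e]; decide)
  | ctx n f ts ts' i =>
    cases f with
    | c => exact i.elim0
    | ff => simp [hd, code1, ok]

theorem lev_ok {n : ℕ} {s t : L1.Term ℕ} (h : lev R1 n s t) : ok (hd s) (hd t) := by
  cases n with
  | zero => exact h.elim
  | succ n => exact step_ok h

theorem reach {n : ℕ} {s t : L1.Term ℕ} (h : ReflTransGen (lev R1 n) s t) :
    (hd t = 0 ∨ hd t = 3 → hd s = 0 ∨ hd s = 3) ∧ (hd t = 1 ∨ hd t = 4 → hd s = 1 ∨ hd s = 4) ∧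
      (hd s = 3 → hd t = 3) ∧ (hd s = 4 → hd t = 4) := by
  induction h with
  | refl => exact ⟨id, id, id, id⟩
  | tail _ r ih =>
    have := lev_ok r
    unfold ok at this
    omega

theorem nocond {n : ℕ} {x : L1.Term ℕ} (h3 : Join (ReflTransGen (lev R1 n)) x (k 3))
    (h4 : Join (ReflTransGen (lev R1 n)) x (k 4)) : False := by
  obtain ⟨a, a1, a2⟩ := h3
  obtain ⟨b, b1, b2⟩ := h4
  have h1 := reach a1
  have h2 := reach a2
  have h3 := reach b1
  have h4 := reach b2
  have e3 : hd (k 3) = 3 := rfl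
  have e4 : hd (k 4) = 4 := rfl
  omega

def bad : L1.Term ℕ → Prop
  | .var _ => False
  | .func f ts => code1 _ f < 5 ∨ ∃ i, bad (ts i)

theorem bad_k (i : Fin 7) (h : i.1 < 5) : bad (k i) := Or.inl h

theorem rw_bad {s t : L1.Term ℕ} (h : Rw R1 s t) : bad s ∧ bad t := by
  obtain ⟨n, h⟩ := h
  cases n with
  | zero => exact h.elim
  | succ n =>
    change Step R1 _ s t at h
    induction h with
    | root ρ σ h hc =>
      simp only [R1, Set.mem_insert_iff, Set.mem_singleton_iff] at h
      rcases h with rfl | rfl | rfl | rfl | rfl | rfl | rfl | rfl | rfl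
      all_goals first
        | (simp only [u, k_subst]; exact ⟨bad_k _ (by decide), bad_k _ (by decide)⟩)
        | (exfalso
           have h3 := hc (Term.var 0, k 3) (by simp [cr])
           have h4 := hc (Term.var 0, k 4) (by simp [cr])
           simp only [k_subst] at h3 h4
           exact nocond h3 h4)
    | ctx n f ts ts' i _ _ ih => exact ⟨Or.inr ⟨i, ih.1⟩, Or.inr ⟨i, ih.2⟩⟩

theorem rw_ctx {L : FirstOrder.Language.{0, 0}} {R : Set (Rule L)} {n : ℕ} (f : L.Functions n)
    (ts : Fin n → L.Term ℕ) (i : Fin n) {t : L.Term ℕ} (h : Rw R (ts i) t) :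
    Rw R (Term.func f ts) (Term.func f (Function.update ts i t)) := by
  obtain ⟨m, h⟩ := h
  cases m with
  | zero => exact h.elim
  | succ m =>
    refine ⟨m + 1, Step.ctx n f ts _ i (fun j hj => (Function.update_of_ne hj _ _).symm) ?_⟩
    rw [Function.update_self]
    exact h

theorem rw_u {i j : Fin 7} (h : u i j ∈ R1) : Rw R1 (k i) (k j) := by
  have := Step.root (R := R1) (E := Join (ReflTransGen (lev R1 0))) (u i j) Term.var h (by simp [u])
  simp only [u, k_subst] at this
  exact ⟨1, this⟩

theorem bad_rw {s : L1.Term ℕ} (h : bad s) : ∃ t, Rw R1 s t := by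
  induction s with
  | var x => exact h.elim
  | func f ts ih =>
    rcases h with h | ⟨i, h⟩
    · cases f with
      | c i =>
        have e : Term.func (L := L1) (F1.c i) ts = k i := by
          unfold k; congr 1; funext j; exact j.elim0
        rw [e]
        change i.1 < 5 at h
        fin_cases i
        · exact ⟨_, rw_u (j := 2) (by simp [R1])⟩
        · exact ⟨_, rw_u (j := 2) (by simp [R1])⟩
        · exact ⟨_, rw_u (j := 2) (by simp [R1])⟩
        · exact ⟨_, rw_u (j := 3) (by simp [R1])⟩
        · exact ⟨_, rw_u (j := 4) (by simp [R1])⟩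
        · simp at h
        · simp at h
      | ff => exact absurd h (by simp [code1])
    · obtain ⟨t, ht⟩ := ih i h
      exact ⟨_, rw_ctx f ts i ht⟩

theorem un1 : UN R1 := by
  intro s t hs _ h
  have : s = t ∨ (bad s ∧ bad t) := by
    clear hs
    rename_i ht
    clear ht
    induction h with
    | rel a b h => exact Or.inr (rw_bad h)
    | refl a => exact Or.inl rfl
    | symm a b _ ih => exact ih.imp Eq.symm And.symm
    | trans a b c _ _ ih1 ih2 =>
      rcases ih1 with rfl | ih1
      · exact ih2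
      · rcases ih2 with rfl | ih2
        · exact Or.inr ih1
        · exact Or.inr ⟨ih1.1, ih2.2⟩
  rcases this with h | h
  · exact h
  · obtain ⟨t, ht⟩ := bad_rw h.1
    exact (hs t ht).elim

open Classical in
noncomputable def comb : ∀ n, F2 n → (Fin n → L2.Term ℕ) → L2.Term ℕ
  | _, .g, us => if us 0 = us 1 then us 0 else Term.func (L := L2) F2.g us

noncomputable def nf : L2.Term ℕ → L2.Term ℕ
  | .var x => .var x
  | .func f ts => comb _ f (fun i => nf (ts i))

theorem step_nf {E : L2.Term ℕ → L2.Term ℕ → Prop} (hE : ∀ a b, E a b → nf a = nf b)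
    {s t : L2.Term ℕ} (h : Step R2 E s t) : nf s = nf t := by
  induction h with
  | root ρ σ h hc =>
    simp only [R2, Set.mem_insert_iff, Set.mem_singleton_iff] at h
    have e : nf (σ 0) = nf (σ 1) := by
      rcases h with rfl | rfl
      all_goals exact hE _ _ (hc (Term.var 0, Term.var 1) (by simp [gr]))
    have e2 : nf (gxy.subst σ) = nf (σ 0) := by
      simp only [gxy, Term.subst, nf, comb]
      exact if_pos e
    rcases h with rfl | rfl
    · exact e2
    · exact e2.trans e
  | ctx n f ts ts' i h _ ih =>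
    simp only [nf]
    congr 1
    funext j
    by_cases e : j = i
    · rw [e]; exact ih
    · rw [h j e]

theorem lev_nf : ∀ n s t, lev R2 n s t → nf s = nf t := by
  intro n
  induction n with
  | zero => intro s t h; exact h.elim
  | succ n ih =>
    have hs : ∀ a b, ReflTransGen (lev R2 n) a b → nf a = nf b := by
      intro a b h
      induction h with
      | refl => rfl
      | tail _ r ih' => exact ih'.trans (ih _ _ r)
    intro s t h
    exact step_nf (fun a b ⟨c, h1, h2⟩ => (hs _ _ h1).trans (hs _ _ h2).symm) h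

theorem nf_normal {s : L2.Term ℕ} (h : ∀ t, ¬ Rw R2 s t) : nf s = s := by
  induction s with
  | var x => rfl
  | func f ts ih =>
    have e : (fun i => nf (ts i)) = ts :=
      funext fun i => ih i fun t ht => h _ (rw_ctx f ts i ht)
    simp only [nf, e]
    cases f with
    | g =>
      simp only [comb]
      refine if_neg fun e' => ?_
      have := Step.root (R := R2) (E := Join (ReflTransGen (lev R2 0))) (gr 0) (fun _ => ts 0)
        (by simp [R2]) (by
          intro c hc
          simp only [gr, List.mem_singleton] at hc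
          subst hc
          exact ⟨ts 0, .refl, .refl⟩)
      have e3 : (gr 0).lhs.subst (fun _ => ts 0) = Term.func (L := L2) F2.g ts := by
        simp only [gr, gxy, Term.subst]
        congr 1
        funext j
        fin_cases j
        · rfl
        · exact e'
      rw [e3] at this
      exact h _ ⟨1, this⟩

theorem un2 : UN R2 := by
  intro s t hs ht h
  have : nf s = nf t := by
    clear hs ht
    induction h with
    | rel a b h => obtain ⟨n, h⟩ := h; exact lev_nf n _ _ h
    | refl a => rfl
    | symm a b _ ih => exact ih.symm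
    | trans a b c _ _ ih1 ih2 => exact ih1.trans ih2
  rw [nf_normal hs, nf_normal ht] at this
  exact this

abbrev L3 := L1.sum L2
abbrev R3 := union R1 R2

def K (i : Fin 7) : L3.Term ℕ := Term.func (L := L3) (Sum.inl (F1.c i)) Fin.elim0

theorem K_subst (i : Fin 7) (σ : ℕ → L3.Term ℕ) :
    ((LHom.sumInl : L1 →ᴸ L3).onTerm (k i)).subst σ = K i := by
  unfold k K
  simp only [LHom.onTerm, Term.subst]
  congr 1
  funext j
  exact j.elim0

def code3 : ∀ n, L3.Functions n → ℕ
  | _, .inl f => code1 _ f
  | _, .inr _ => 9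

def hd3 : L3.Term ℕ → ℕ
  | .var _ => 8
  | .func f _ => code3 _ f

theorem step3 {E : L3.Term ℕ → L3.Term ℕ → Prop} {s t : L3.Term ℕ} (h : Step R3 E s t) :
    hd3 s ≠ 5 ∧ hd3 s ≠ 6 := by
  cases h with
  | root ρ σ h =>
    rcases h with ⟨ρ, h, rfl⟩ | ⟨ρ, h, rfl⟩
    · simp only [R1, Set.mem_insert_iff, Set.mem_singleton_iff] at h
      rcases h with rfl | rfl | rfl | rfl | rfl | rfl | rfl | rfl | rfl
      all_goals exact ⟨fun h => (by cases h), fun h => by cases h⟩
    · simp only [R2, Set.mem_insert_iff, Set.mem_singleton_iff] at h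
      rcases h with rfl | rfl
      all_goals exact ⟨fun h => (by cases h), fun h => by cases h⟩
  | ctx n f ts ts' i =>
    rcases f with f | f
    · cases f with
      | c => exact i.elim0
      | ff => exact ⟨fun h => (by cases h), fun h => by cases h⟩
    · exact ⟨fun h => (by cases h), fun h => by cases h⟩

theorem lev_u (n : ℕ) {i j : Fin 7} (h : u i j ∈ R1) : lev R3 (n + 1) (K i) (K j) := by
  have := Step.root (R := R3) (E := Join (ReflTransGen (lev R3 n))) ((u i j).map LHom.sumInl)
    Term.var (Or.inl ⟨_, h, rfl⟩) (by simp [u, Rule.map])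
  simp only [u, Rule.map, K_subst] at this
  exact this

def σg : ℕ → L3.Term ℕ := fun n => if n = 0 then K 0 else K 1

def G : L3.Term ℕ := ((LHom.sumInr : L2 →ᴸ L3).onTerm gxy).subst σg

theorem lev_G (j : ℕ) (h : gr j ∈ R2) : lev R3 2 G (σg j) :=
  Step.root (R := R3) (E := Join (ReflTransGen (lev R3 1))) ((gr j).map LHom.sumInr) σg
    (Or.inr ⟨_, h, rfl⟩) (by
      intro c hc
      simp only [gr, Rule.map, List.map, List.mem_singleton] at hc
      subst hc
      exact ⟨K 2, .single (lev_u 0 (by simp [R1])), .single (lev_u 0 (by simp [R1]))⟩)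

def FG : L3.Term ℕ := ((LHom.sumInl : L1 →ᴸ L3).onTerm fx).subst (fun _ => G)

theorem lev_F (j : Fin 7) (h : cr j ∈ R1) : lev R3 3 FG (K j) := by
  have := Step.root (R := R3) (E := Join (ReflTransGen (lev R3 2))) ((cr j).map LHom.sumInl)
    (fun _ => G) (Or.inl ⟨_, h, rfl⟩) (by
      intro c hc
      simp only [cr, Rule.map, List.map, List.mem_cons, List.not_mem_nil, or_false] at hc
      rcases hc with rfl | rfl
      · simp only [K_subst]
        exact ⟨K 3, .head (lev_G 0 (by simp [R2])) (.single (lev_u 1 (by simp [R1]))), .refl⟩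
      · simp only [K_subst]
        exact ⟨K 4, .head (lev_G 1 (by simp [R2])) (.single (lev_u 1 (by simp [R1]))), .refl⟩)
  simp only [cr, Rule.map, K_subst] at this
  exact this

theorem normalK {i : Fin 7} (h : i.1 = 5 ∨ i.1 = 6) (t : L3.Term ℕ) : ¬ Rw R3 (K i) t := by
  rintro ⟨n, r⟩
  cases n with
  | zero => exact r.elim
  | succ n =>
    have := step3 r
    have e : hd3 (K i) = i.1 := rfl
    omega

theorem not_un3 : ¬ UN R3 := by
  intro h
  have := h (K 5) (K 6) (normalK (Or.inl rfl)) (normalK (Or.inr rfl))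
    (EqvGen.trans _ _ _ (EqvGen.symm _ _ (EqvGen.rel _ _ ⟨3, lev_F 5 (by simp [R1])⟩))
      (EqvGen.rel _ _ ⟨3, lev_F 6 (by simp [R1])⟩))
  have e := congrArg hd3 this
  cases e

end Pool.Agent.H.MP_a6fba8_lc
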