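import Mathlib

namespace Pool.Agent.H.MP_a6fba8_lc

open FirstOrder FirstOrder.Language Relation

/-- a conditional rule: a list of joinability conditions, a left side and a right side -/
structure Rule (L : FirstOrder.Language.{0, 0}) where
  cond : List (L.Term ℕ × L.Term ℕ)
  lhs : L.Term ℕ
  rhs : L.Term ℕ

/-- one rewrite step in any context, the conditions being read in `E` -/
inductive Step {L : FirstOrder.Language.{0, 0}} (R : Set (Rule L)) (E : L.Term ℕ → L.Term ℕ → Prop) :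
    L.Term ℕ → L.Term ℕ → Prop
  | root (ρ : Rule L) (σ : ℕ → L.Term ℕ) : ρ ∈ R →
      (∀ c ∈ ρ.cond, E (c.1.subst σ) (c.2.subst σ)) → Step R E (ρ.lhs.subst σ) (ρ.rhs.subst σ)
  | ctx (n : ℕ) (f : L.Functions n) (ts ts' : Fin n → L.Term ℕ) (i : Fin n) :
      (∀ j, j ≠ i → ts j = ts' j) → Step R E (ts i) (ts' i) →
      Step R E (Term.func f ts) (Term.func f ts')

/-- the stratified rewrite relations of a join system -/
def lev {L : FirstOrder.Language.{0, 0}} (R : Set (Rule L)) : ℕ → L.Term ℕ → L.Term ℕ → Prop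
  | 0 => fun _ _ => False
  | n + 1 => Step R (Join (ReflTransGen (lev R n)))

/-- the rewrite relation -/
def Rw {L : FirstOrder.Language.{0, 0}} (R : Set (Rule L)) (s t : L.Term ℕ) : Prop := ∃ n, lev R n s t

/-- unique normal forms -/
def UN {L : FirstOrder.Language.{0, 0}} (R : Set (Rule L)) : Prop :=
  ∀ s t : L.Term ℕ, (∀ u, ¬ Rw R s u) → (∀ u, ¬ Rw R t u) → EqvGen (Rw R) s t → s = t

/-- finitely many rules, left sides are not variables, no extra variables -/
def Good {L : FirstOrder.Language.{0, 0}} (R : Set (Rule L)) : Prop :=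
  R.Finite ∧ ∀ ρ ∈ R, (∀ x : ℕ, ρ.lhs ≠ Term.var x) ∧ ρ.rhs.varFinset ⊆ ρ.lhs.varFinset ∧
    ∀ c ∈ ρ.cond, c.1.varFinset ⊆ ρ.lhs.varFinset ∧ c.2.varFinset ⊆ ρ.lhs.varFinset

/-- a rule read in a larger signature -/
def Rule.map {L L' : FirstOrder.Language.{0, 0}} (φ : L →ᴸ L') (ρ : Rule L) : Rule L' :=
  ⟨ρ.cond.map (fun c => (φ.onTerm c.1, φ.onTerm c.2)), φ.onTerm ρ.lhs, φ.onTerm ρ.rhs⟩

/-- disjoint union of two systems -/
def union {L₁ L₂ : FirstOrder.Language.{0, 0}} (R₁ : Set (Rule L₁)) (R₂ : Set (Rule L₂)) :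
    Set (Rule (L₁.sum L₂)) :=
  Rule.map LHom.sumInl '' R₁ ∪ Rule.map LHom.sumInr '' R₂

end Pool.Agent.H.MP_a6fba8_lc
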